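import Pool.Agent.Helper60.PlzA.Goals

/-!
# Project PLA (MP_8e7d5e_co), packet PK2: selection and contradiction.
-/

set_option autoImplicit false

namespace Pool.Agent.Helper77.PlzA

open Finset Pool.Agent.Helper93.Plz Pool.Agent.Helper60.PlzA

open scoped Classical

/-- Representatives of prescribed values. -/
theorem exists_rep {V : Type} [Nonempty V] {M : ℕ} (σ : V → Fin M) (Z Z' : Finset V) (r : ℕ)
    (hZ : 2 * r ≤ (Z.image σ).card) (hZ' : 2 * r ≤ (Z'.image σ).card) :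
    ∃ Y₁ Y₃ : Finset V, Y₁ ⊆ Z ∧ Y₃ ⊆ Z' ∧ Y₁.card = r ∧ Y₃.card = r ∧
      Set.InjOn σ ((Y₁ ∪ Y₃ : Finset V) : Set V) ∧ Disjoint Y₁ Y₃ := by
  obtain ⟨Q₁, hQ₁, hc₁⟩ := exists_subset_card_eq (show r ≤ (Z.image σ).card by omega)
  have h3 : r ≤ (Z'.image σ \ Q₁).card := by
    have := le_card_sdiff Q₁ (Z'.image σ)
    omega
  obtain ⟨Q₃, hQ₃, hc₃⟩ := exists_subset_card_eq h3
  have e1 : ∀ q : Fin M, ∃ v : V, q ∈ Q₁ → v ∈ Z ∧ σ v = q := by
    intro q
    by_cases hq : q ∈ Q₁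
    · obtain ⟨v, hv, hv'⟩ := mem_image.1 (hQ₁ hq)
      exact ⟨v, fun _ => ⟨hv, hv'⟩⟩
    · exact ⟨Classical.arbitrary V, fun h => absurd h hq⟩
  have e3 : ∀ q : Fin M, ∃ v : V, q ∈ Q₃ → v ∈ Z' ∧ σ v = q := by
    intro q
    by_cases hq : q ∈ Q₃
    · obtain ⟨v, hv, hv'⟩ := mem_image.1 (mem_sdiff.1 (hQ₃ hq)).1
      exact ⟨v, fun _ => ⟨hv, hv'⟩⟩
    · exact ⟨Classical.arbitrary V, fun h => absurd h hq⟩
  choose g₁ hg₁ using e1
  choose g₃ hg₃ using e3
  have hinj₁ : Set.InjOn g₁ (Q₁ : Set (Fin M)) := fun q hq q' hq' h => by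
    rw [← (hg₁ q hq).2, ← (hg₁ q' hq').2, h]
  have hinj₃ : Set.InjOn g₃ (Q₃ : Set (Fin M)) := fun q hq q' hq' h => by
    rw [← (hg₃ q hq).2, ← (hg₃ q' hq').2, h]
  have hd : ∀ q ∈ Q₃, q ∉ Q₁ := fun q hq => (mem_sdiff.1 (hQ₃ hq)).2
  refine ⟨Q₁.image g₁, Q₃.image g₃, ?_, ?_, ?_, ?_, ?_, ?_⟩
  · intro v hv
    obtain ⟨q, hq, rfl⟩ := mem_image.1 hv
    exact (hg₁ q hq).1
  · intro v hv
    obtain ⟨q, hq, rfl⟩ := mem_image.1 hv
    exact (hg₃ q hq).1
  · rw [card_image_of_injOn hinj₁, hc₁]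
  · rw [card_image_of_injOn hinj₃, hc₃]
  · intro v hv w hw h
    rcases mem_union.1 (mem_coe.1 hv) with hv | hv <;> rcases mem_union.1 (mem_coe.1 hw) with hw | hw <;>
      obtain ⟨q, hq, rfl⟩ := mem_image.1 hv <;> obtain ⟨q', hq', rfl⟩ := mem_image.1 hw
    · rw [(hg₁ q hq).2, (hg₁ q' hq').2] at h
      rw [h]
    · rw [(hg₁ q hq).2, (hg₃ q' hq').2] at h
      exact absurd (h ▸ hq) (hd q' hq')
    · rw [(hg₃ q hq).2, (hg₁ q' hq').2] at h
      exact absurd (h ▸ hq') (hd q hq)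
    · rw [(hg₃ q hq).2, (hg₃ q' hq').2] at h
      rw [h]
  · rw [disjoint_left]
    intro v hv hw
    obtain ⟨q, hq, rfl⟩ := mem_image.1 hv
    obtain ⟨q', hq', h⟩ := mem_image.1 hw
    have h2 := congrArg σ h
    rw [(hg₃ q' hq').2, (hg₁ q hq).2] at h2
    exact hd q' hq' (h2 ▸ hq)

/-- A set of `r` vertices has at most `r (r - 1)` ordered adjacent pairs. -/
theorem e2_le {V : Type} [Fintype V] (G : SimpleGraph V) (X : Finset V) :
    (e2 G X : ℝ) ≤ (X.card : ℝ) * X.card - X.card := by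
  have h1 : e2 G X ≤ X.offDiag.card := by
    refine card_le_card fun p hp => ?_
    rw [mem_filter, mem_product] at hp
    exact mem_offDiag.2 ⟨hp.1.1, hp.1.2, hp.2.ne⟩
  have h2 : X.offDiag.card = X.card * X.card - X.card := offDiag_card X
  have h3 : X.card ≤ X.card * X.card := by nlinarith
  rw [h2] at h1
  have h4 : (e2 G X : ℝ) ≤ ((X.card * X.card - X.card : ℕ) : ℝ) := by exact_mod_cast h1
  rwa [Nat.cast_sub h3, Nat.cast_mul] at h4

/-- Two sets without edges between them. -/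
theorem e2_union {V : Type} [Fintype V] (G : SimpleGraph V) (Y₁ Y₃ : Finset V)
    (h : ∀ y ∈ Y₁, ∀ y' ∈ Y₃, ¬ G.Adj y y') : (e2 G (Y₁ ∪ Y₃) : ℝ) ≤ (e2 G Y₁ : ℝ) + e2 G Y₃ := by
  have h1 : e2 G (Y₁ ∪ Y₃) ≤ e2 G Y₁ + e2 G Y₃ := by
    unfold e2 eb
    refine (card_le_card fun p hp => ?_).trans (card_union_le _ _)
    rw [mem_filter, mem_product, mem_union, mem_union] at hp
    rw [mem_union, mem_filter, mem_filter, mem_product, mem_product]
    obtain ⟨⟨h1 | h1, h2 | h2⟩, h3⟩ := hp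
    · exact Or.inl ⟨⟨h1, h2⟩, h3⟩
    · exact absurd h3 (h _ h1 _ h2)
    · exact absurd h3.symm (h _ h2 _ h1)
    · exact Or.inr ⟨⟨h1, h2⟩, h3⟩
  exact_mod_cast h1

/-- Different parts for the elements of `X`. -/
theorem exists_j {V : Type} {M r : ℕ} (i : Fin M) (X : Finset V) (hX : X.card = r)
    (P : V → Fin M → Prop) (hP : ∀ x ∈ X, 4 * (univ.filter fun j => ¬ P x j).card ≤ M)
    (hM : 4 * (r + 2) ≤ 3 * M) :
    ∃ j : V → Fin M, Set.InjOn j (X : Set V) ∧ ∀ x ∈ X, j x ≠ i ∧ P x (j x) := by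
  let J : {x // x ∈ X} → Finset (Fin M) := fun x => univ.filter fun j => j ≠ i ∧ P x.1 j
  have hJ : ∀ x, r ≤ (J x).card := by
    intro x
    have h1 : (univ : Finset (Fin M)) ⊆ J x ∪ ((univ.filter fun j => ¬ P x.1 j) ∪ {i}) := by
      intro j _
      rw [mem_union, mem_union, mem_filter, mem_filter, mem_singleton]
      by_cases h : P x.1 j
      · by_cases h' : j = i
        · exact Or.inr (Or.inr h')
        · exact Or.inl ⟨mem_univ _, h', h⟩
      · exact Or.inr (Or.inl ⟨mem_univ _, h⟩)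
    have h2 := card_le_card h1
    have h3 := card_union_le (J x) ((univ.filter fun j => ¬ P x.1 j) ∪ {i})
    have h4 := card_union_le (univ.filter fun j => ¬ P x.1 j) {i}
    rw [card_univ, Fintype.card_fin] at h2
    rw [card_singleton] at h4
    have h5 := hP x.1 x.2
    omega
  have hall : ∀ s : Finset {x // x ∈ X}, s.card ≤ (s.biUnion J).card := by
    intro s
    rcases s.eq_empty_or_nonempty with rfl | ⟨x, hx⟩
    · simp
    · have h1 : (J x).card ≤ (s.biUnion J).card := card_le_card (subset_biUnion_of_mem J hx)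
      have h2 : s.card ≤ r := by
        have := card_le_univ s
        rwa [Fintype.card_coe, hX] at this
      exact h2.trans ((hJ x).trans h1)
  obtain ⟨f, hf, hf'⟩ := (Finset.all_card_le_biUnion_card_iff_exists_injective J).1 hall
  refine ⟨fun v => if h : v ∈ X then f ⟨v, h⟩ else i, ?_, ?_⟩
  · intro v hv w hw h
    have hv' : v ∈ X := hv
    have hw' : w ∈ X := hw
    simp only [dif_pos hv', dif_pos hw'] at h
    exact congrArg Subtype.val (hf h)
  · intro x hx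
    have h1 := hf' ⟨x, hx⟩
    simp only [dif_pos hx]
    exact (mem_filter.1 h1).2

theorem pk2 (h1 : S_EXCH) (h2 : S_EXPOS) (h3 : S_KST) : S_PK2 := by
  intro γ ζ s r hγ hγ1 hζ hζ1 hs hr hζr
  set l : ℝ := γ ^ 2 / (32 * 4 ^ s) with hl
  have hl0 : 0 < l := by positivity
  obtain ⟨N₀, hN₀⟩ := h3 l (2 * r * (2 * s)) hl0
  refine ⟨max ⌈(N₀ : ℝ) / l⌉₊ (2 * (r + 2)), fun M hM V _ G σ hσ hdeg i X hX hXr hfine hlt => ?_⟩
  have hM1 : (N₀ : ℝ) ≤ l * M := by
    have := (Nat.le_ceil ((N₀ : ℝ) / l)).trans (Nat.cast_le.2 ((le_max_left _ _).trans hM))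
    rw [div_le_iff₀ hl0] at this
    linarith
  have hM2 : 2 * (r + 2) ≤ M := (le_max_right _ _).trans hM
  set N := NX G σ (ζ * s) i X with hN
  set B := (bad G (M * s) γ).filter fun p => p.1 ∈ N ∧ p.2 ∈ N with hB
  have hs' : (1 : ℝ) ≤ s := by exact_mod_cast hs
  have hr' : (1 : ℝ) ≤ r := by exact_mod_cast hr
  have hζs : ζ * s ≤ s := mul_le_of_le_one_left (by linarith) hζ1
  obtain ⟨x₀, hx₀⟩ : X.Nonempty := card_pos.1 (by omega)
  have : Nonempty V := ⟨x₀⟩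
  have hNmem : ∀ z ∈ N, σ z ≠ i ∧ exc G σ z i ≤ ζ * s ∧ ∀ x ∈ X, G.Adj x z ∧ exc G σ x (σ z) ≤ ζ * s :=
    fun z hz => (mem_filter.1 hz).2
  have hBN : ∀ p ∈ B, p.1 ∈ N ∧ p.2 ∈ N := fun p hp => (mem_filter.1 hp).2
  have hNc : N.card ≤ M * s := by
    refine le_trans (card_le_card fun z hz => ?_) (hdeg x₀)
    exact mem_filter.2 ⟨mem_univ _, ((hNmem z hz).2.2 x₀ hx₀).1⟩
  have hNc' : (N.card : ℝ) ≤ (M * s : ℕ) := by exact_mod_cast hNc
  have hBc : (B.card : ℝ) ≤ (N.card : ℝ) * N.card := by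
    have : B.card ≤ (N ×ˢ N).card := card_le_card fun p hp => mem_product.2 (hBN p hp)
    rw [card_product] at this
    exact_mod_cast this
  have hNpos : 0 < (N.card : ℝ) := by
    by_contra hcon
    have h0 : (N.card : ℝ) = 0 := le_antisymm (not_lt.1 hcon) (Nat.cast_nonneg _)
    rw [h0] at hlt hBc
    linarith
  have hlN : l * (M * s : ℕ) < N.card := by
    have : l * (M * s : ℕ) * N.card < (N.card : ℝ) * N.card := hlt.trans_le hBc
    exact lt_of_mul_lt_mul_right this hNpos.le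
  have hN₀N : N₀ ≤ N.card := by
    have h4 : l * M ≤ l * (M * s : ℕ) := by
      refine mul_le_mul_of_nonneg_left ?_ hl0.le
      push_cast
      exact le_mul_of_one_le_right (Nat.cast_nonneg _) hs'
    have h5 : (N₀ : ℝ) ≤ N.card := by linarith
    exact_mod_cast h5
  have hlB : l * (N.card : ℝ) ^ 2 ≤ B.card := by
    have : l * (N.card : ℝ) * N.card ≤ l * (M * s : ℕ) * N.card :=
      mul_le_mul_of_nonneg_right (mul_le_mul_of_nonneg_left hNc' hl0.le) hNpos.le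
    nlinarith
  obtain ⟨Z, Z', hZN, hZN', hZc, hZc', hZZ⟩ := hN₀ V inferInstance N B hN₀N hBN hlB
  -- every part contains at most 2 s elements of N
  have hpart : ∀ q : Fin M, (N.filter fun z => σ z = q).card ≤ 2 * s := by
    intro q
    rcases (N.filter fun z => σ z = q).eq_empty_or_nonempty with h0 | ⟨z, hz⟩
    · rw [h0]; simp
    · obtain ⟨hz1, hz2⟩ := mem_filter.1 hz
      have h4 := ((hNmem z hz1).2.2 x₀ hx₀).2
      rw [hz2] at h4
      have h5 : Dp G σ x₀ (σ x₀) ≤ s := (h2 V inferInstance G M σ hσ).2 s x₀ (hdeg x₀)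
      have h6 : (N.filter fun z => σ z = q).card ≤ Dp G σ x₀ q := by
        refine card_le_card fun y hy => ?_
        obtain ⟨hy1, hy2⟩ := mem_filter.1 hy
        exact mem_filter.2 ⟨mem_univ _, ((hNmem y hy1).2.2 x₀ hx₀).1, hy2⟩
      have h7 : (Dp G σ x₀ q : ℝ) ≤ 2 * s := by
        unfold exc at h4
        have h8 : (Dp G σ x₀ (σ x₀) : ℝ) ≤ s := by exact_mod_cast h5
        linarith
      have h8 : Dp G σ x₀ q ≤ 2 * s := by exact_mod_cast h7
      exact h6.trans h8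
  have himg : ∀ W : Finset V, W ⊆ N → W.card = 2 * r * (2 * s) → 2 * r ≤ (W.image σ).card := by
    intro W hW hWc
    have h4 : W.card ≤ 2 * s * (W.image σ).card := by
      refine card_le_mul_card_image W (2 * s) fun q _ => ?_
      exact (card_le_card (filter_subset_filter _ hW)).trans (hpart q)
    rw [hWc] at h4
    have h5 : 2 * s * (2 * r) ≤ 2 * s * (W.image σ).card := by linarith
    exact Nat.le_of_mul_le_mul_left h5 (by omega)
  obtain ⟨Y₁, Y₃, hY₁, hY₃, hc₁, hc₃, hinj, hdis⟩ :=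
    exists_rep σ Z Z' r (himg Z hZN hZc) (himg Z' hZN' hZc')
  have hYN : ∀ y ∈ Y₁ ∪ Y₃, y ∈ N := by
    intro y hy
    rcases mem_union.1 hy with hy | hy
    · exact hZN (hY₁ hy)
    · exact hZN' (hY₃ hy)
  have hYc : (Y₁ ∪ Y₃).card = 2 * r := by
    rw [card_union_of_disjoint hdis]
    omega
  have hna : ∀ y ∈ Y₁, ∀ y' ∈ Y₃, ¬ G.Adj y y' := by
    intro y hy y' hy'
    have h4 := (mem_filter.1 (hZZ y (hY₁ hy) y' (hY₃ hy'))).1
    exact (mem_filter.1 h4).2.2.1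
  obtain ⟨j, hj1, hj2⟩ := exists_j i X hXr (fun x j => ¬ ζ * s < exc G σ x j)
    (fun x hx => by simpa only [not_not] using hfine x hx) (by omega)
  have key := h1 V inferInstance G M σ hσ i X (Y₁ ∪ Y₃) j hX (fun y hy => (hNmem y (hYN y hy)).1) hinj hj1
    (fun x hx => (hj2 x hx).1)
  have k1 : (eb G X (Y₁ ∪ Y₃) : ℝ) = r * (2 * r) := by
    have : eb G X (Y₁ ∪ Y₃) = (X ×ˢ (Y₁ ∪ Y₃)).card := by
      unfold eb
      congr 1
      refine filter_true_of_mem fun p hp => ?_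
      obtain ⟨hp1, hp2⟩ := mem_product.1 hp
      exact ((hNmem _ (hYN _ hp2)).2.2 _ hp1).1
    rw [this, card_product, hXr, hYc]
    push_cast
    ring
  have k2 : ∑ y ∈ Y₁ ∪ Y₃, exc G σ y i ≤ 2 * r * (ζ * s) := by
    refine (sum_le_card_nsmul _ _ (ζ * s) fun y hy => (hNmem y (hYN y hy)).2.1).trans (le_of_eq ?_)
    rw [hYc, nsmul_eq_mul]
    push_cast
    ring
  have k3 : ∑ x ∈ X, exc G σ x (j x) ≤ r * (ζ * s) := by
    refine (sum_le_card_nsmul _ _ (ζ * s) fun x hx => not_lt.1 (hj2 x hx).2).trans (le_of_eq ?_)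
    rw [hXr, nsmul_eq_mul]
  have k4 := e2_le G X
  have k5 := (e2_union G Y₁ Y₃ hna).trans (add_le_add (e2_le G Y₁) (e2_le G Y₃))
  rw [hXr] at k4
  rw [hc₁, hc₃] at k5
  rw [k1] at key
  have k6 : (r : ℝ) * (r + 3) ≤ r * (6 * ζ * s) := by linarith
  have k7 : (r : ℝ) + 3 ≤ 6 * ζ * s := le_of_mul_le_mul_left k6 (by linarith)
  linarith

end Pool.Agent.Helper77.PlzA
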